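import Pool.Agent.N783.PQ.Sha

/-!
# Project PQ (helper783), subtask PQ/SH1: the calculus of the square roots

`Rf P I s` (a function of the root) is transported to `Pool.Agent.Y723.HJ.Rt` (a function of the
index of the root) by writing `f = pf r` over an algebraically closed field.
-/

set_option autoImplicit false

namespace Pool.Agent.N383.PQ

open Polynomial Ideal
open Pool.Agent.N783.PQ (Rf S_RF S_RFM)
open Pool.Agent.Y723.HJ

section

variable {L : Type} [Field L]

lemma root_pf {n : ℕ} {r : Fin n → L} {α : L} (h : (pf r).eval α = 0) : ∃ i, r i = α := by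
  unfold pf at h
  rw [eval_prod, Finset.prod_eq_zero_iff] at h
  obtain ⟨i, -, hi⟩ := h
  rw [eval_sub, eval_X, eval_C, sub_eq_zero] at hi
  exact ⟨i, hi.symm⟩

lemma exists_pf [IsAlgClosed L] (f : L[X]) (hm : f.Monic) (hs : f.Separable) :
    ∃ (n : ℕ) (r : Fin n → L), Function.Injective r ∧ f = pf r := by
  have h1 : f = (f.roots.map fun a => X - C a).prod := by
    have hsp : f.Splits := IsAlgClosed.splits f
    exact hsp.eq_prod_roots_of_monic hm
  obtain ⟨l, hl⟩ : ∃ l : List L, (l : Multiset L) = f.roots := ⟨f.roots.toList, by simp⟩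
  refine ⟨l.length, l.get, ?_, ?_⟩
  · have h2 : f.roots.Nodup := nodup_roots hs
    rw [← hl, Multiset.coe_nodup] at h2
    exact List.nodup_iff_injective_get.1 h2
  · rw [← hl, Multiset.map_coe, Multiset.prod_coe] at h1
    unfold pf
    conv_lhs => rw [h1]
    have h3 := List.prod_ofFn (f := fun i : Fin l.length => (X - C (l.get i) : L[X]))
    rw [← h3]
    congr 1
    rw [← Function.comp_def (fun a : L => (X - C a : L[X])) l.get, ← List.map_ofFn]
    congr 1
    exact (List.ofFn_get l).symm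

lemma Rf_iff {n : ℕ} {r : Fin n → L} [HF (pf r)] (P : ClassGroup (CR (pf r)))
    (I : Ideal (CR (pf r))) (s : L → L) : Rf P I s ↔ Rt r P I (fun i => s (r i)) := by
  constructor
  · rintro ⟨J, h, h1, h2, h3, h4, h5, h6⟩
    exact ⟨J, h, ⟨h1, fun i => h2 _ (pf_eval i)⟩, h3, h4, h5, fun i => h6 _ (pf_eval i)⟩
  · rintro ⟨J, h, ⟨h1, h2⟩, h3, h4, h5, h6⟩
    refine ⟨J, h, h1, ?_, h3, h4, h5, ?_⟩
    · intro α hα
      obtain ⟨i, rfl⟩ := root_pf hα
      exact h2 i
    · intro α hα
      obtain ⟨i, rfl⟩ := root_pf hα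
      exact h6 i

end

/-- the calculus of the square roots -/
theorem rf : S_RF := by
  intro L _ _ _ f hf
  obtain ⟨n, r, hr, rfl⟩ := exists_pf f (OddM.monic (f := f)) (HF.sep (f := f))
  refine ⟨?_, ?_, ?_, ?_, ?_⟩
  · intro P I hI hP
    obtain ⟨s, hs⟩ := Rt.exists P hI hP
    refine ⟨Function.extend r s 0, ?_⟩
    rw [Rf_iff]
    convert hs using 2 with i
    exact hr.extend_apply _ _ _
  · intro P I s s' hI h h' α hα
    rw [Rf_iff] at h h'
    obtain ⟨i, rfl⟩ := root_pf hα
    exact congrFun (Rt.unique hI h h') i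
  · intro P P' I I' s s' h h'
    rw [Rf_iff] at h h' ⊢
    exact h.mul h'
  · intro P I s hI h α hα
    rw [Rf_iff] at h
    obtain ⟨i, rfl⟩ := root_pf hα
    exact h.sq hI i
  · intro T s h h1
    rw [Rf_iff] at h
    have h2 : (fun i => s (r i)) = fun _ => 1 := by
      funext i
      exact h1 _ (pf_eval i)
    rw [h2] at h
    exact h.eq_one

/-- functoriality of the square roots -/
theorem rfm : S_RFM := by
  intro F L _ _ _ _ _ f f' _ _ φ h P I s s' hR hs
  have hroot : ∀ β, f'.eval β = 0 → ∃ α, f.eval α = 0 ∧ φ α = β := by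
    intro β hβ
    obtain ⟨n, r, hr, hf⟩ := exists_pf f (OddM.monic (f := f)) (HF.sep (f := f))
    rw [← h, hf, pf_map] at hβ
    obtain ⟨i, hi⟩ := root_pf hβ
    exact ⟨r i, by rw [hf]; exact pf_eval i, hi⟩
  obtain ⟨J, z, h1, h2, rfl, h4, h5, h6⟩ := hR
  refine ⟨J.map (mapR φ h), mapR φ h z, map_ne _ _ h1, ?_, (clmap_cl _ _ h1).symm,
    mapR_ne _ _ h4, ?_, ?_⟩
  · intro β hβ
    obtain ⟨α, hα, rfl⟩ := hroot β hβ
    rw [map_nm _ _ h1, eval_map, eval₂_at_apply, _root_.map_ne_zero]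
    exact h2 α hα
  · rw [← Ideal.map_pow, ← map_bar, ← Ideal.map_mul, h5, Ideal.map_span, Set.image_singleton]
  · intro β hβ
    obtain ⟨α, hα, rfl⟩ := hroot β hβ
    rw [hs α hα, h6 α hα, mapR_val, del_map _ _ _ h1, map_div₀]

end Pool.Agent.N383.PQ
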